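import Pool.Agent.H99.NR.Stm

/-!
Crew NR (MP_d89a53_pr), part BEN: Bennett's inequality.
-/

set_option autoImplicit false

noncomputable section

open MeasureTheory ProbabilityTheory Finset

namespace Pool.Agent.H64.NR

lemma hasSum_exp_real (y : ℝ) : HasSum (fun k : ℕ => y ^ k / (k.factorial : ℝ)) (Real.exp y) := by
  rw [Real.exp_eq_exp_ℝ]
  exact NormedSpace.expSeries_div_hasSum_exp y

lemma hasSum_exp_sub (y : ℝ) :
    HasSum (fun k : ℕ => y ^ (k + 1) / ((k + 1).factorial : ℝ)) (Real.exp y - 1) := by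
  have := (hasSum_nat_add_iff' 1).mpr (hasSum_exp_real y)
  simpa using this

lemma hasSum_exp_sub' (y : ℝ) :
    HasSum (fun k : ℕ => y ^ (k + 2) / ((k + 2).factorial : ℝ)) (Real.exp y - 1 - y) := by
  have := (hasSum_nat_add_iff' 2).mpr (hasSum_exp_real y)
  have e : Real.exp y - ∑ i ∈ Finset.range 2, y ^ i / (i.factorial : ℝ) =
      Real.exp y - 1 - y := by
    simp [Finset.sum_range_succ]
    ring
  rw [e] at this
  exact this

/-- `φ(u) = e^u - 1 - u`. -/
def phi (u : ℝ) : ℝ := Real.exp u - 1 - u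

lemma phi_nonneg (u : ℝ) : 0 ≤ phi u := by
  unfold phi
  linarith [Real.add_one_le_exp u]

lemma phi_scale (u y : ℝ) (hy : |y| ≤ u) : u ^ 2 * phi y ≤ y ^ 2 * phi u := by
  have h0 : 0 ≤ u := (abs_nonneg y).trans hy
  refine hasSum_le ?_ ((hasSum_exp_sub' y).mul_left (u ^ 2))
    ((hasSum_exp_sub' u).mul_left (y ^ 2))
  intro k
  have hk : y ^ k ≤ u ^ k := by
    calc y ^ k ≤ |y ^ k| := le_abs_self _
      _ = |y| ^ k := abs_pow y k
      _ ≤ u ^ k := pow_le_pow_left₀ (abs_nonneg y) hy k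
  have hf : (0 : ℝ) < ((k + 2).factorial : ℝ) := by exact_mod_cast Nat.factorial_pos _
  rw [← mul_div_assoc, ← mul_div_assoc]
  refine div_le_div_of_nonneg_right ?_ hf.le
  have e1 : u ^ 2 * y ^ (k + 2) = (u ^ 2 * y ^ 2) * y ^ k := by ring
  have e2 : y ^ 2 * u ^ (k + 2) = (u ^ 2 * y ^ 2) * u ^ k := by ring
  rw [e1, e2]
  exact mul_le_mul_of_nonneg_left hk (by positivity)

lemma phi_le (u : ℝ) (hu : 0 ≤ u) : phi u ≤ u / 2 * (Real.exp u - 1) := by
  refine hasSum_le ?_ (hasSum_exp_sub' u) ((hasSum_exp_sub u).mul_left (u / 2))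
  intro k
  have hf : (0 : ℝ) < ((k + 1).factorial : ℝ) := by exact_mod_cast Nat.factorial_pos _
  have e : (((k + 2).factorial : ℕ) : ℝ) = ((k : ℝ) + 2) * ((k + 1).factorial : ℝ) := by
    rw [Nat.factorial_succ (k + 1)]
    push_cast
    ring
  rw [e]
  have e2 : u / 2 * (u ^ (k + 1) / ((k + 1).factorial : ℝ)) =
      u ^ (k + 2) / (2 * ((k + 1).factorial : ℝ)) := by
    field_simp
    ring
  rw [e2]
  refine div_le_div_of_nonneg_left (by positivity) (by positivity) ?_
  refine mul_le_mul_of_nonneg_right ?_ hf.le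
  have : (0 : ℝ) ≤ k := Nat.cast_nonneg k
  linarith

/-- One coordinate. -/
lemma coord (ν : Measure ℝ) [IsProbabilityMeasure ν] (f : ℝ → ℝ) (hf : Measurable f) (b : ℝ)
    (hb : 0 < b) (hfb : ∀ᵐ a ∂ν, |f a| ≤ b) (h0 : ∫ a, f a ∂ν = 0) (h1 : ∫ a, f a ^ 2 ∂ν ≤ 1)
    (l : ℝ) (hl : 0 < l) (s : SignType) :
    Integrable (fun a => Real.exp (l * (s : ℝ) * f a)) ν ∧
    ∫ a, Real.exp (l * (s : ℝ) * f a) ∂ν ≤
      if s ≠ 0 then Real.exp (phi (l * b) / b ^ 2) else 1 := by
  have hs1 : |(s : ℝ)| ≤ 1 := by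
    rcases s with _ | _ | _ <;> simp
  have hle : ∀ᵐ a ∂ν, |l * (s : ℝ) * f a| ≤ l * b := by
    filter_upwards [hfb] with a ha
    rw [abs_mul, abs_mul, abs_of_pos hl]
    have : |(s : ℝ)| * |f a| ≤ 1 * b := mul_le_mul hs1 ha (abs_nonneg _) (by norm_num)
    nlinarith
  have hint : Integrable (fun a => Real.exp (l * (s : ℝ) * f a)) ν := by
    refine Integrable.of_bound (C := Real.exp (l * b))
      ((Real.measurable_exp.comp (hf.const_mul _)).aestronglyMeasurable) ?_
    filter_upwards [hle] with a ha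
    rw [Real.norm_eq_abs, abs_of_pos (Real.exp_pos _)]
    exact Real.exp_le_exp.mpr ((le_abs_self _).trans ha)
  refine ⟨hint, ?_⟩
  by_cases hs : s = 0
  · subst hs
    simp
  rw [if_pos hs]
  have hs2 : (s : ℝ) ^ 2 = 1 := by
    rcases s with _ | _ | _
    · exact absurd rfl hs
    · simp
    · simp
  have hfi : Integrable f ν := Integrable.of_bound (C := b) hf.aestronglyMeasurable (by
    filter_upwards [hfb] with a ha
    rwa [Real.norm_eq_abs])
  have hfi2 : Integrable (fun a => f a ^ 2) ν :=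
    Integrable.of_bound (C := b ^ 2) (hf.pow_const 2).aestronglyMeasurable (by
    filter_upwards [hfb] with a ha
    rw [Real.norm_eq_abs, abs_pow]
    exact pow_le_pow_left₀ (abs_nonneg _) ha 2)
  have hpt : ∀ᵐ a ∂ν, Real.exp (l * (s : ℝ) * f a) ≤
      1 + l * (s : ℝ) * f a + phi (l * b) / b ^ 2 * f a ^ 2 := by
    filter_upwards [hle] with a ha
    have h := phi_scale (l * b) (l * (s : ℝ) * f a) ha
    have e : (l * (s : ℝ) * f a) ^ 2 = l ^ 2 * f a ^ 2 := by
      rw [mul_pow, mul_pow, hs2, mul_one]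
    have h' : l ^ 2 * (b ^ 2 * phi (l * (s : ℝ) * f a)) ≤ l ^ 2 * (f a ^ 2 * phi (l * b)) := by
      rw [e, mul_pow] at h
      linarith
    have h2 := le_of_mul_le_mul_left h' (by positivity : (0 : ℝ) < l ^ 2)
    have h3 : phi (l * (s : ℝ) * f a) ≤ phi (l * b) / b ^ 2 * f a ^ 2 := by
      rw [div_mul_eq_mul_div, le_div_iff₀ (by positivity)]
      linarith
    unfold phi at h3 ⊢
    linarith
  calc ∫ a, Real.exp (l * (s : ℝ) * f a) ∂ν
      ≤ ∫ a, (1 + l * (s : ℝ) * f a + phi (l * b) / b ^ 2 * f a ^ 2) ∂ν := by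
        refine integral_mono_ae hint ?_ hpt
        exact ((integrable_const _).add (hfi.const_mul _)).add (hfi2.const_mul _)
    _ = 1 + l * (s : ℝ) * ∫ a, f a ∂ν + phi (l * b) / b ^ 2 * ∫ a, f a ^ 2 ∂ν := by
        have i1 : Integrable (fun _ : ℝ => (1 : ℝ)) ν := integrable_const _
        have i2 : Integrable (fun a => l * (s : ℝ) * f a) ν := hfi.const_mul _
        have i3 : Integrable (fun a => phi (l * b) / b ^ 2 * f a ^ 2) ν := hfi2.const_mul _
        have i4 : Integrable (fun a => 1 + l * (s : ℝ) * f a) ν := i1.add i2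
        rw [integral_add i4 i3, integral_add i1 i2, integral_const_mul, integral_const_mul]
        simp
    _ ≤ phi (l * b) / b ^ 2 + 1 := by
        rw [h0]
        have : phi (l * b) / b ^ 2 * ∫ a, f a ^ 2 ∂ν ≤ phi (l * b) / b ^ 2 * 1 :=
          mul_le_mul_of_nonneg_left h1 (div_nonneg (phi_nonneg _) (by positivity))
        linarith
    _ ≤ Real.exp (phi (l * b) / b ^ 2) := Real.add_one_le_exp _

/-- One-sided Bennett inequality. -/
lemma one_side (n : ℕ) (ν : Measure ℝ) [IsProbabilityMeasure ν] (f : ℝ → ℝ) (hf : Measurable f)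
    (b : ℝ) (hb : 0 < b) (hfb : ∀ᵐ a ∂ν, |f a| ≤ b) (h0 : ∫ a, f a ∂ν = 0)
    (h1 : ∫ a, f a ^ 2 ∂ν ≤ 1) (x : Fin n → SignType) (y : ℝ)
    (hx : 1 ≤ Pool.Agent.H99.NR.sz x) (hy : 0 < y) :
    (Pool.Agent.H99.NR.rowLaw n ν).real {r | y ≤ ∑ j, (x j : ℝ) * f (r j)} ≤
      Real.exp (-(y / (2 * b) * Real.log (1 + b * y / Pool.Agent.H99.NR.sz x))) := by
  set m : ℝ := (Pool.Agent.H99.NR.sz x : ℝ) with hm
  have hm1 : (1 : ℝ) ≤ m := by rw [hm]; exact_mod_cast hx
  have hz : 0 < b * y / m := by positivity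
  set u : ℝ := Real.log (1 + b * y / m) with hu
  have hu0 : 0 < u := Real.log_pos (by linarith)
  have heu : Real.exp u = 1 + b * y / m := Real.exp_log (by linarith)
  set l : ℝ := u / b with hl
  have hl0 : 0 < l := div_pos hu0 hb
  have hlb : l * b = u := by rw [hl]; field_simp
  have hprob : IsProbabilityMeasure (Pool.Agent.H99.NR.rowLaw n ν) := by
    unfold Pool.Agent.H99.NR.rowLaw; infer_instance
  have hexp : ∀ r : Fin n → ℝ, Real.exp (l * ∑ j, (x j : ℝ) * f (r j)) =
      ∏ j, Real.exp (l * (x j : ℝ) * f (r j)) := by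
    intro r
    rw [← Real.exp_sum, Finset.mul_sum]
    congr 1
    exact Finset.sum_congr rfl fun j _ => by ring
  have hint : Integrable (fun r : Fin n → ℝ => Real.exp (l * ∑ j, (x j : ℝ) * f (r j)))
      (Pool.Agent.H99.NR.rowLaw n ν) := by
    simp only [hexp]
    exact Integrable.fintype_prod (f := fun j a => Real.exp (l * (x j : ℝ) * f a))
      fun j => (coord ν f hf b hb hfb h0 h1 l hl0 (x j)).1
  have hmgf : mgf (fun r : Fin n → ℝ => ∑ j, (x j : ℝ) * f (r j))
      (Pool.Agent.H99.NR.rowLaw n ν) l ≤ Real.exp (m * (phi u / b ^ 2)) := by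
    unfold mgf
    simp only [hexp]
    unfold Pool.Agent.H99.NR.rowLaw
    rw [integral_fintype_prod_eq_prod (f := fun j a => Real.exp (l * (x j : ℝ) * f a))]
    calc ∏ j, ∫ a, Real.exp (l * (x j : ℝ) * f a) ∂ν
        ≤ ∏ j, (if x j ≠ 0 then Real.exp (phi (l * b) / b ^ 2) else 1) := by
          refine Finset.prod_le_prod (fun j _ => integral_nonneg fun a => (Real.exp_pos _).le)
            fun j _ => (coord ν f hf b hb hfb h0 h1 l hl0 (x j)).2
      _ = Real.exp (phi (l * b) / b ^ 2) ^ (Pool.Agent.H99.NR.sz x) := by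
          unfold Pool.Agent.H99.NR.sz
          rw [← Finset.prod_filter, Finset.prod_const]
      _ = Real.exp (m * (phi u / b ^ 2)) := by
          rw [← Real.exp_nat_mul, hlb]
  have hmk := measure_ge_le_exp_mul_mgf (μ := Pool.Agent.H99.NR.rowLaw n ν)
    (X := fun r : Fin n → ℝ => ∑ j, (x j : ℝ) * f (r j)) y hl0.le hint
  refine hmk.trans ?_
  calc Real.exp (-l * y) * mgf (fun r : Fin n → ℝ => ∑ j, (x j : ℝ) * f (r j))
        (Pool.Agent.H99.NR.rowLaw n ν) l
      ≤ Real.exp (-l * y) * Real.exp (m * (phi u / b ^ 2)) :=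
        mul_le_mul_of_nonneg_left hmgf (Real.exp_pos _).le
    _ = Real.exp (-l * y + m * (phi u / b ^ 2)) := (Real.exp_add _ _).symm
    _ ≤ Real.exp (-(y / (2 * b) * u)) := by
        refine Real.exp_le_exp.mpr ?_
        have hphi := phi_le u hu0.le
        rw [heu] at hphi
        have h3 : m * (phi u / b ^ 2) ≤ m * (u / 2 * (1 + b * y / m - 1) / b ^ 2) :=
          mul_le_mul_of_nonneg_left (div_le_div_of_nonneg_right hphi (by positivity))
            (by linarith)
        have h4 : m * (u / 2 * (1 + b * y / m - 1) / b ^ 2) = y / (2 * b) * u := by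
          field_simp
          ring
        have h5 : -l * y = -(2 * (y / (2 * b) * u)) := by
          rw [hl]; field_simp
        rw [h5]
        linarith

theorem BEN_proved : Pool.Agent.H99.NR.S_BEN := by
  intro n ν f b hν hf hb hfb h0 h1 x y hx hy
  have hprob : IsProbabilityMeasure (Pool.Agent.H99.NR.rowLaw n ν) := by
    unfold Pool.Agent.H99.NR.rowLaw; infer_instance
  have a1 := one_side n ν f hf b hb hfb h0 h1 x y hx hy
  have a2 := one_side n ν (fun a => -f a) hf.neg b hb (by simpa using hfb)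
    (by rw [integral_neg, h0, neg_zero]) (by simpa using h1) x y hx hy
  have hsub : {r : Fin n → ℝ | y < |∑ j, (x j : ℝ) * f (r j)|} ⊆
      {r | y ≤ ∑ j, (x j : ℝ) * f (r j)} ∪ {r | y ≤ ∑ j, (x j : ℝ) * (fun a => -f a) (r j)} := by
    intro r hr
    simp only [Set.mem_ofPred_eq] at hr
    rcases lt_abs.mp hr with h | h
    · exact Or.inl h.le
    · refine Or.inr ?_
      simp only [Set.mem_ofPred_eq, mul_neg, Finset.sum_neg_distrib]
      exact h.le
  calc (Pool.Agent.H99.NR.rowLaw n ν).real {r | y < |∑ j, (x j : ℝ) * f (r j)|}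
      ≤ (Pool.Agent.H99.NR.rowLaw n ν).real ({r | y ≤ ∑ j, (x j : ℝ) * f (r j)} ∪
          {r | y ≤ ∑ j, (x j : ℝ) * (fun a => -f a) (r j)}) := measureReal_mono hsub
    _ ≤ _ := measureReal_union_le _ _
    _ ≤ _ := by linarith

end Pool.Agent.H64.NR
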