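import Pool.Agent.H99.NR.Stm

/-!
Crew NR (MP_d89a53_pr), part RND: rounding (little Grothendieck inequality, deterministic).
-/

set_option autoImplicit false

noncomputable section

open Finset

namespace Pool.Agent.H64.NR

/-- The quadratic form `‖B v‖²`. -/
def Q {n : ℕ} (B : Fin n → Fin n → ℝ) (v : Fin n → ℝ) : ℝ := ∑ i, (∑ j, B i j * v j) ^ 2

lemma Q_nonneg {n : ℕ} (B : Fin n → Fin n → ℝ) (v : Fin n → ℝ) : 0 ≤ Q B v :=
  Finset.sum_nonneg fun _ _ => sq_nonneg _

lemma Q_smul {n : ℕ} (B : Fin n → Fin n → ℝ) (v : Fin n → ℝ) (c : ℝ) :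
    Q B (fun j => c * v j) = c ^ 2 * Q B v := by
  unfold Q
  rw [Finset.mul_sum]
  refine Finset.sum_congr rfl fun i _ => ?_
  rw [← mul_pow, Finset.mul_sum]
  congr 1
  refine Finset.sum_congr rfl fun j _ => ?_
  ring

lemma Q_add_le {n : ℕ} (B : Fin n → Fin n → ℝ) (v w : Fin n → ℝ) :
    Q B (fun j => v j + w j) ≤ 2 * Q B v + 2 * Q B w := by
  unfold Q
  rw [Finset.mul_sum, Finset.mul_sum, ← Finset.sum_add_distrib]
  refine Finset.sum_le_sum fun i _ => ?_
  have : ∑ j, B i j * (v j + w j) = (∑ j, B i j * v j) + ∑ j, B i j * w j := by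
    rw [← Finset.sum_add_distrib]
    exact Finset.sum_congr rfl fun j _ => by ring
  rw [this]
  nlinarith [sq_nonneg ((∑ j, B i j * v j) - ∑ j, B i j * w j)]

lemma Q_convex {n : ℕ} (B : Fin n → Fin n → ℝ) (v w : Fin n → ℝ) (s t : ℝ) (hs : 0 ≤ s)
    (ht : 0 ≤ t) (hst : s + t = 1) :
    Q B (fun j => s * v j + t * w j) ≤ s * Q B v + t * Q B w := by
  unfold Q
  rw [Finset.mul_sum, Finset.mul_sum, ← Finset.sum_add_distrib]
  refine Finset.sum_le_sum fun i _ => ?_
  have : ∑ j, B i j * (s * v j + t * w j) =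
      s * (∑ j, B i j * v j) + t * ∑ j, B i j * w j := by
    rw [Finset.mul_sum, Finset.mul_sum, ← Finset.sum_add_distrib]
    exact Finset.sum_congr rfl fun j _ => by ring
  rw [this]
  have ht' : t = 1 - s := by linarith
  subst ht'
  nlinarith [mul_nonneg (mul_nonneg hs ht) (sq_nonneg ((∑ j, B i j * v j) - ∑ j, B i j * w j))]

lemma Q_le_cube {n : ℕ} (B : Fin n → Fin n → ℝ) (R : Finset (Fin n)) (M : ℝ)
    (hM : ∀ x : Fin n → SignType, (∀ j, x j ≠ 0 ↔ j ∈ R) →
      ∑ i, (∑ j, B i j * (x j : ℝ)) ^ 2 ≤ M) :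
    ∀ (S : Finset (Fin n)) (v : Fin n → ℝ), (∀ j, j ∉ R → v j = 0) → (∀ j, |v j| ≤ 1) →
      (∀ j, j ∈ R → j ∉ S → v j = 1 ∨ v j = -1) → Q B v ≤ M := by
  intro S
  induction S using Finset.induction_on with
  | empty =>
    intro v h0 _ h1
    have hx : ∀ j, ((SignType.sign (v j) : SignType) : ℝ) = v j := by
      intro j
      by_cases hj : j ∈ R
      · rcases h1 j hj (Finset.notMem_empty j) with h | h
        · rw [h]; simp
        · rw [h]; simp
      · rw [h0 j hj]; simp
    have := hM (fun j => SignType.sign (v j)) (by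
      intro j
      constructor
      · intro h
        by_contra hj
        exact h (by simp [h0 j hj])
      · intro hj h
        rcases h1 j hj (Finset.notMem_empty j) with h' | h'
        · rw [h'] at h; simp at h
        · rw [h'] at h; simp at h)
    simp only [hx] at this
    exact this
  | insert a S ha ih =>
    intro v h0 hb h1
    by_cases haR : a ∈ R
    · have e1 := ih (Function.update v a 1) (by
        intro j hj
        have : j ≠ a := fun h => hj (h ▸ haR)
        rw [Function.update_of_ne this]; exact h0 j hj) (by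
        intro j
        by_cases h : j = a
        · subst h; simp
        · rw [Function.update_of_ne h]; exact hb j) (by
        intro j hj hjS
        by_cases h : j = a
        · subst h; simp
        · rw [Function.update_of_ne h]
          exact h1 j hj (by simp [h, hjS]))
      have e2 := ih (Function.update v a (-1)) (by
        intro j hj
        have : j ≠ a := fun h => hj (h ▸ haR)
        rw [Function.update_of_ne this]; exact h0 j hj) (by
        intro j
        by_cases h : j = a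
        · subst h; simp
        · rw [Function.update_of_ne h]; exact hb j) (by
        intro j hj hjS
        by_cases h : j = a
        · subst h; simp
        · rw [Function.update_of_ne h]
          exact h1 j hj (by simp [h, hjS]))
      have hva := abs_le.mp (hb a)
      have key := Q_convex B (Function.update v a 1) (Function.update v a (-1))
        ((1 + v a) / 2) ((1 - v a) / 2) (by linarith) (by linarith) (by ring)
      have hv : (fun j => (1 + v a) / 2 * Function.update v a 1 j +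
          (1 - v a) / 2 * Function.update v a (-1) j) = v := by
        funext j
        by_cases h : j = a
        · subst h; simp; ring
        · rw [Function.update_of_ne h, Function.update_of_ne h]; ring
      rw [hv] at key
      have i1 : (1 + v a) / 2 * Q B (Function.update v a 1) ≤ (1 + v a) / 2 * M :=
        mul_le_mul_of_nonneg_left e1 (by linarith)
      have i2 : (1 - v a) / 2 * Q B (Function.update v a (-1)) ≤ (1 - v a) / 2 * M :=
        mul_le_mul_of_nonneg_left e2 (by linarith)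
      linarith
    · refine ih v h0 hb ?_
      intro j hj hjS
      refine h1 j hj ?_
      simp only [Finset.mem_insert, not_or]
      exact ⟨fun h => haR (h ▸ hj), hjS⟩

/-- The sign of a boolean. -/
def sg (b : Bool) : ℝ := if b then 1 else -1

lemma sum_cons {r : ℕ} (F : (Fin (r + 1) → Bool) → ℝ) :
    ∑ g, F g = ∑ g : Fin r → Bool, (F (Fin.cons true g) + F (Fin.cons false g)) := by
  rw [← (Fin.consEquiv (fun _ : Fin (r + 1) => Bool)).sum_comp, Fintype.sum_prod_type]
  simp only [Fintype.sum_bool]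
  rw [← Finset.sum_add_distrib]
  rfl

lemma sum_two {r : ℕ} (F : (Fin r → Bool) → ℝ) (a b : ℝ) :
    ∑ g, (a + b * F g) = 2 ^ r * a + b * ∑ g, F g := by
  rw [Finset.sum_add_distrib, ← Finset.mul_sum]
  simp

lemma mom2 : ∀ (r : ℕ) (a : Fin r → ℝ),
    ∑ g : Fin r → Bool, (∑ q, sg (g q) * a q) ^ 2 = 2 ^ r * ∑ q, a q ^ 2 := by
  intro r
  induction r with
  | zero => intro a; simp
  | succ r ih =>
    intro a
    rw [sum_cons]
    simp only [Fin.sum_univ_succ, Fin.cons_zero, Fin.cons_succ]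
    have : ∀ g : Fin r → Bool, (sg true * a 0 + ∑ q : Fin r, sg (g q) * a q.succ) ^ 2 +
        (sg false * a 0 + ∑ q : Fin r, sg (g q) * a q.succ) ^ 2 =
        2 * a 0 ^ 2 + 2 * (∑ q : Fin r, sg (g q) * a q.succ) ^ 2 := by
      intro g
      simp only [sg, if_true, Bool.false_eq_true, if_false]
      ring
    simp only [this]
    rw [sum_two (fun g => (∑ q : Fin r, sg (g q) * a q.succ) ^ 2), ih (fun q => a q.succ)]
    ring

lemma mom4 : ∀ (r : ℕ) (a : Fin r → ℝ),
    ∑ g : Fin r → Bool, (∑ q, sg (g q) * a q) ^ 4 ≤ 2 ^ r * (3 * (∑ q, a q ^ 2) ^ 2) := by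
  intro r
  induction r with
  | zero => intro a; simp
  | succ r ih =>
    intro a
    rw [sum_cons]
    simp only [Fin.sum_univ_succ, Fin.cons_zero, Fin.cons_succ]
    have : ∀ g : Fin r → Bool, (sg true * a 0 + ∑ q : Fin r, sg (g q) * a q.succ) ^ 4 +
        (sg false * a 0 + ∑ q : Fin r, sg (g q) * a q.succ) ^ 4 =
        2 * a 0 ^ 4 + 12 * a 0 ^ 2 * (∑ q : Fin r, sg (g q) * a q.succ) ^ 2 +
        2 * (∑ q : Fin r, sg (g q) * a q.succ) ^ 4 := by
      intro g
      simp only [sg, if_true, Bool.false_eq_true, if_false]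
      ring
    simp only [this]
    rw [Finset.sum_add_distrib, sum_two (fun g => (∑ q : Fin r, sg (g q) * a q.succ) ^ 2),
      ← Finset.mul_sum (f := fun g : Fin r → Bool => (∑ q : Fin r, sg (g q) * a q.succ) ^ 4),
      mom2 r (fun q => a q.succ)]
    have h := ih (fun q => a q.succ)
    have h2 : (0 : ℝ) < 2 ^ r := by positivity
    have e : (2 : ℝ) ^ (r + 1) = 2 * 2 ^ r := by ring
    rw [e]
    nlinarith [mul_nonneg h2.le (sq_nonneg (a 0 ^ 2))]

/-- Clipping to `[-1, 1]`. -/
def clip (u : ℝ) : ℝ := max (-1) (min 1 u)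

lemma clip_abs (u : ℝ) : |clip u| ≤ 1 := by
  rw [abs_le]
  refine ⟨le_max_left _ _, max_le (by norm_num) (min_le_left _ _)⟩

lemma clip_zero : clip 0 = 0 := by
  unfold clip
  norm_num

lemma sub_clip_sq (u : ℝ) : (u - clip u) ^ 2 ≤ u ^ 4 / 16 := by
  have hq : 0 ≤ u ^ 4 := by positivity
  unfold clip
  rcases le_total u (-1) with h | h
  · rw [min_eq_right (by linarith), max_eq_left h]
    have h1 : 0 ≤ -(u - -1) := by linarith
    have h2 : -(u - -1) ≤ u ^ 2 / 4 := by nlinarith [sq_nonneg (u + 2)]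
    have := mul_le_mul h2 h2 h1 (by positivity)
    nlinarith
  · rcases le_total u 1 with h' | h'
    · rw [min_eq_right h', max_eq_right h]
      have : (u - u) ^ 2 = 0 := by ring
      rw [this]; positivity
    · rw [min_eq_left h', max_eq_right (by linarith)]
      have h1 : 0 ≤ u - 1 := by linarith
      have h2 : u - 1 ≤ u ^ 2 / 4 := by nlinarith [sq_nonneg (u - 2)]
      have := mul_le_mul h2 h2 h1 (by positivity)
      nlinarith

/-- All admissible families have total at most `γ`. -/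
def Bd {n : ℕ} (B : Fin n → Fin n → ℝ) (R : Finset (Fin n)) (γ : ℝ) : Prop :=
  ∀ (r : ℕ) (X : Fin r → Fin n → ℝ), (∀ q j, j ∉ R → X q j = 0) → (∀ j, ∑ q, X q j ^ 2 ≤ 1) →
    ∑ q, Q B (X q) ≤ γ

lemma Bd_fintype {n : ℕ} {B : Fin n → Fin n → ℝ} {R : Finset (Fin n)} {γ : ℝ} (h : Bd B R γ)
    {ι : Type} [Fintype ι] (X : ι → Fin n → ℝ) (h0 : ∀ q j, j ∉ R → X q j = 0)
    (h1 : ∀ j, ∑ q, X q j ^ 2 ≤ 1) : ∑ q, Q B (X q) ≤ γ := by
  have e := (Fintype.equivFin ι).symm
  have := h (Fintype.card ι) (fun q => X (e q)) (fun q j hj => h0 _ j hj) (by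
    intro j
    rw [e.sum_comp (fun q => X q j ^ 2)]
    exact h1 j)
  rw [e.sum_comp (fun q => Q B (X q))] at this
  exact this

lemma Bd_step {n : ℕ} (B : Fin n → Fin n → ℝ) (R : Finset (Fin n)) (M : ℝ)
    (hM : ∀ x : Fin n → SignType, (∀ j, x j ≠ 0 ↔ j ∈ R) →
      ∑ i, (∑ j, B i j * (x j : ℝ)) ^ 2 ≤ M) (γ : ℝ) (hγ : Bd B R γ) :
    Bd B R (2 * M + 3 / 8 * γ) := by
  intro r X h0 h1
  have h2 : (0 : ℝ) < 2 ^ r := by positivity
  -- the random vectors
  set u : (Fin r → Bool) → Fin n → ℝ := fun g j => ∑ q, sg (g q) * X q j with hu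
  have hu0 : ∀ g j, j ∉ R → u g j = 0 := by
    intro g j hj
    rw [hu]
    refine Finset.sum_eq_zero fun q _ => ?_
    rw [h0 q j hj, mul_zero]
  have e1 : ∑ g, Q B (u g) = 2 ^ r * ∑ q, Q B (X q) := by
    unfold Q
    rw [Finset.sum_comm, Finset.sum_comm (s := (Finset.univ : Finset (Fin r))), Finset.mul_sum]
    refine Finset.sum_congr rfl fun i _ => ?_
    rw [← mom2 r (fun q => ∑ j, B i j * X q j)]
    refine Finset.sum_congr rfl fun g _ => ?_
    congr 1
    rw [hu]
    simp only [Finset.mul_sum]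
    rw [Finset.sum_comm]
    refine Finset.sum_congr rfl fun q _ => Finset.sum_congr rfl fun j _ => ?_
    ring
  have e2 : ∀ g, Q B (u g) ≤ 2 * M + 2 * Q B (fun j => u g j - clip (u g j)) := by
    intro g
    have a1 := Q_add_le B (fun j => clip (u g j)) (fun j => u g j - clip (u g j))
    have a2 : (fun j => clip (u g j) + (u g j - clip (u g j))) = u g := by
      funext j; ring
    rw [a2] at a1
    have a3 := Q_le_cube B R M hM Finset.univ (fun j => clip (u g j)) (by
      intro j hj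
      simp only [hu0 g j hj, clip_zero]) (fun j => clip_abs _) (by
      intro j _ hj; exact absurd (Finset.mem_univ j) hj)
    linarith
  have e3 : 16 / 3 / 2 ^ r * ∑ g, Q B (fun j => u g j - clip (u g j)) ≤ γ := by
    have := Bd_fintype hγ (ι := Fin r → Bool)
      (fun g j => √(16 / 3 / 2 ^ r) * (u g j - clip (u g j))) (by
        intro g j hj
        simp only [hu0 g j hj, clip_zero, sub_zero, mul_zero]) (by
        intro j
        have b1 : ∀ g, (√(16 / 3 / 2 ^ r) * (u g j - clip (u g j))) ^ 2 =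
            16 / 3 / 2 ^ r * (u g j - clip (u g j)) ^ 2 := by
          intro g
          rw [mul_pow, Real.sq_sqrt (by positivity)]
        simp only [b1]
        rw [← Finset.mul_sum]
        have b2 : ∑ g, (u g j - clip (u g j)) ^ 2 ≤ ∑ g, (u g j) ^ 4 / 16 :=
          Finset.sum_le_sum fun g _ => sub_clip_sq _
        rw [← Finset.sum_div] at b2
        have b3 := mom4 r (fun q => X q j)
        have b4 : (∑ q, X q j ^ 2) ^ 2 ≤ 1 := by
          have : 0 ≤ ∑ q, X q j ^ 2 := Finset.sum_nonneg fun _ _ => sq_nonneg _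
          nlinarith [h1 j]
        have b5 : ∑ g, (u g j - clip (u g j)) ^ 2 ≤ 2 ^ r * 3 / 16 := by
          refine b2.trans ?_
          have : ∑ g, u g j ^ 4 ≤ 2 ^ r * (3 * (∑ q, X q j ^ 2) ^ 2) := b3
          have : ∑ g, u g j ^ 4 ≤ 2 ^ r * 3 := this.trans (by nlinarith)
          linarith
        calc 16 / 3 / 2 ^ r * ∑ g, (u g j - clip (u g j)) ^ 2
            ≤ 16 / 3 / 2 ^ r * (2 ^ r * 3 / 16) :=
              mul_le_mul_of_nonneg_left b5 (by positivity)
          _ = 1 := by field_simp)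
    have b6 : ∀ g, Q B (fun j => √(16 / 3 / 2 ^ r) * (u g j - clip (u g j))) =
        16 / 3 / 2 ^ r * Q B (fun j => u g j - clip (u g j)) := by
      intro g
      rw [Q_smul B (fun j => u g j - clip (u g j)), Real.sq_sqrt (by positivity)]
    simp only [b6] at this
    rw [← Finset.mul_sum] at this
    exact this
  have e4 : ∑ g, Q B (u g) ≤ ∑ g : Fin r → Bool,
      (2 * M + 2 * Q B (fun j => u g j - clip (u g j))) := Finset.sum_le_sum fun g _ => e2 g
  rw [sum_two (fun g => Q B (fun j => u g j - clip (u g j))), e1] at e4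
  have e5 : ∑ g, Q B (fun j => u g j - clip (u g j)) ≤ 2 ^ r * (3 / 16 * γ) := by
    have : 16 / 3 / 2 ^ r * ∑ g, Q B (fun j => u g j - clip (u g j)) =
        (∑ g, Q B (fun j => u g j - clip (u g j))) / (2 ^ r * (3 / 16)) := by
      field_simp
    rw [this, div_le_iff₀ (by positivity)] at e3
    linarith
  have e6 : 2 ^ r * ∑ q, Q B (X q) ≤ 2 ^ r * (2 * M + 3 / 8 * γ) := by
    refine e4.trans ?_
    nlinarith
  exact le_of_mul_le_mul_left e6 h2

lemma Bd_init {n : ℕ} (B : Fin n → Fin n → ℝ) (R : Finset (Fin n)) :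
    Bd B R ((∑ i, ∑ j, B i j ^ 2) * n) := by
  intro r X _ h1
  have a1 : ∀ q, Q B (X q) ≤ (∑ i, ∑ j, B i j ^ 2) * ∑ j, X q j ^ 2 := by
    intro q
    unfold Q
    rw [Finset.sum_mul]
    refine Finset.sum_le_sum fun i _ => ?_
    exact Finset.sum_mul_sq_le_sq_mul_sq _ _ _
  calc ∑ q, Q B (X q) ≤ ∑ q, (∑ i, ∑ j, B i j ^ 2) * ∑ j, X q j ^ 2 :=
        Finset.sum_le_sum fun q _ => a1 q
    _ = (∑ i, ∑ j, B i j ^ 2) * ∑ j, ∑ q, X q j ^ 2 := by
        rw [← Finset.mul_sum, Finset.sum_comm (s := (Finset.univ : Finset (Fin r)))]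
    _ ≤ (∑ i, ∑ j, B i j ^ 2) * ∑ j : Fin n, (1 : ℝ) := by
        refine mul_le_mul_of_nonneg_left (Finset.sum_le_sum fun j _ => h1 j) ?_
        exact Finset.sum_nonneg fun _ _ => Finset.sum_nonneg fun _ _ => sq_nonneg _
    _ = _ := by simp

theorem RND_proved : Pool.Agent.H99.NR.S_RND := by
  intro n B R M hM0 hM
  set S : Set ℝ := {y | ∃ (r : ℕ) (X : Fin r → Fin n → ℝ), (∀ q j, j ∉ R → X q j = 0) ∧
    (∀ j, ∑ q, X q j ^ 2 ≤ 1) ∧ y = ∑ q, Q B (X q)} with hS
  have hne : S.Nonempty := ⟨0, 0, fun q => q.elim0, fun q => q.elim0, fun j => by simp, by simp⟩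
  have hbd : BddAbove S := by
    refine ⟨(∑ i, ∑ j, B i j ^ 2) * n, ?_⟩
    rintro y ⟨r, X, h0, h1, rfl⟩
    exact Bd_init B R r X h0 h1
  have hB : Bd B R (sSup S) := by
    intro r X h0 h1
    exact le_csSup hbd ⟨r, X, h0, h1, rfl⟩
  have hle : sSup S ≤ 2 * M + 3 / 8 * sSup S := by
    refine csSup_le hne ?_
    rintro y ⟨r, X, h0, h1, rfl⟩
    exact Bd_step B R M hM _ hB r X h0 h1
  intro r X h0 h1
  have := hB r X h0 h1
  unfold Q at this
  linarith

end Pool.Agent.H64.NR
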